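import Pool.Agent.Lib.MP_848037_lc.NInv5

set_option autoImplicit false

namespace Pool.Agent.Results.MP_848037_lc.Counter

/-- There is a limit computable sequence `x` whose upper `K`-cone is countable while
`K(n) + n - K(x↾n)` tends to infinity; so the equivalence of Q1 fails. -/
theorem result :
    ∀ K : List Bool → ℕ,
      REPred (fun p : List Bool × ℕ => K p.1 ≤ p.2) →
      (∑' σ : List Bool, (2⁻¹ : ENNReal) ^ K σ) ≤ 1 →
      (∀ f : List Bool → ℕ, REPred (fun p : List Bool × ℕ => f p.1 ≤ p.2) →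
        (∑' σ : List Bool, (2⁻¹ : ENNReal) ^ f σ) ≤ 1 →
        ∃ c : ℕ, ∀ σ : List Bool, K σ ≤ f σ + c) →
      ∃ x : ℕ → Bool,
        (∃ a : ℕ → ℕ → Bool, Computable₂ a ∧ ∀ i, ∃ s₀, ∀ s ≥ s₀, a s i = x i) ∧
        Set.Countable {z : ℕ → Bool | ∃ c : ℕ, ∀ n : ℕ,
            K (List.ofFn (fun i : Fin n => x i)) ≤ K (List.ofFn (fun i : Fin n => z i)) + c} ∧
        ∀ C : ℕ, ∃ N : ℕ, ∀ n ≥ N,
          K (List.ofFn (fun i : Fin n => x i)) + C < K (List.replicate n false) + n := by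
  intro K h1 h2 h3
  have hK : Pool.Agent.Lib.MP_848037_lc.IsK K := ⟨h1, h2, h3⟩
  obtain ⟨x, a, a1, a2, a3⟩ := Pool.Agent.Lib.MP_848037_lc.Neg.exists_counter hK
  refine ⟨x, ⟨a, a1, a2⟩, a3, fun C => ?_⟩
  have := Pool.Agent.Lib.MP_848037_lc.Neg.delta2_not_max hK x a a1 a2
  push Not at this
  exact this C

end Pool.Agent.Results.MP_848037_lc.Counter
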