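import Pool.Agent.Lib.MP_848037_lc.Cone

set_option autoImplicit false

namespace Pool.Agent.Results.MP_848037_lc.NonRandom

/-- For every sequence that is not Martin-Löf random the upper `K`-cone is uncountable and
`K(n) + n - K(x↾n)` tends to infinity, so the equivalence of Q1 holds for all such sequences. -/
theorem result :
    ∀ K : List Bool → ℕ,
      REPred (fun p : List Bool × ℕ => K p.1 ≤ p.2) →
      (∑' σ : List Bool, (2⁻¹ : ENNReal) ^ K σ) ≤ 1 →
      (∀ f : List Bool → ℕ, REPred (fun p : List Bool × ℕ => f p.1 ≤ p.2) →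
        (∑' σ : List Bool, (2⁻¹ : ENNReal) ^ f σ) ≤ 1 →
        ∃ c : ℕ, ∀ σ : List Bool, K σ ≤ f σ + c) →
      ∀ x : ℕ → Bool,
        (∀ c : ℕ, ∃ n : ℕ, K (List.ofFn (fun i : Fin n => x i)) + c ≤ n) →
        ¬ Set.Countable {z : ℕ → Bool | ∃ c : ℕ, ∀ n : ℕ,
            K (List.ofFn (fun i : Fin n => x i)) ≤ K (List.ofFn (fun i : Fin n => z i)) + c} ∧
          ¬ ∃ C : ℕ, ∀ N : ℕ, ∃ n ≥ N,
            K (List.replicate n false) + n ≤ K (List.ofFn (fun i : Fin n => x i)) + C := by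
  intro K h1 h2 h3 x hx
  have hK : Pool.Agent.Lib.MP_848037_lc.IsK K := ⟨h1, h2, h3⟩
  exact ⟨hK.uncountable x hx, hK.not_max x hx⟩

end Pool.Agent.Results.MP_848037_lc.NonRandom
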