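import Pool.Agent.Lib.MP_848037_lc.ThinCE

set_option autoImplicit false

namespace Pool.Agent.Results.MP_848037_lc.ThinDCE

/-- If `x` lies eventually on a computable sequence of thin trees that each string enters and
leaves at most once, then its upper `K`-cone is uncountable. -/
theorem result :
    ∀ K : List Bool → ℕ,
      REPred (fun p : List Bool × ℕ => K p.1 ≤ p.2) →
      (∑' σ : List Bool, (2⁻¹ : ENNReal) ^ K σ) ≤ 1 →
      (∀ f : List Bool → ℕ, REPred (fun p : List Bool × ℕ => f p.1 ≤ p.2) →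
        (∑' σ : List Bool, (2⁻¹ : ENNReal) ^ f σ) ≤ 1 →
        ∃ c : ℕ, ∀ σ : List Bool, K σ ≤ f σ + c) →
      ∀ (x : ℕ → Bool) (d : ℕ), 1 ≤ d →
      ∀ (T : ℕ → List Bool → Bool) (c : ℕ), Computable₂ T →
        (∀ s σ b, T s (σ ++ [b]) = true → T s σ = true) →
        (∀ r s t σ, r ≤ s → s ≤ t → T r σ = true → T t σ = true → T s σ = true) →
        (∀ s n, Set.ncard {σ : List Bool | σ.length = n ∧ T s σ = true} ≤
          2 ^ (n - n / d + c)) →
        (∀ n, ∃ s₀, ∀ s ≥ s₀, T s (List.ofFn (fun i : Fin n => x i)) = true) →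
        ¬ Set.Countable {z : ℕ → Bool | ∃ c : ℕ, ∀ n : ℕ,
            K (List.ofFn (fun i : Fin n => x i)) ≤ K (List.ofFn (fun i : Fin n => z i)) + c} := by
  intro K h1 h2 h3 x d hd T c a1 a2 a3 a4 a5
  have hK : Pool.Agent.Lib.MP_848037_lc.IsK K := ⟨h1, h2, h3⟩
  refine (hK.thin_cone (c := c) ⟨a2, a3⟩ (Pool.Agent.Shared.Type2.TD.of_computable a1) hd
    (fun s n => le_trans (le_of_eq ?_) (a4 s n)) x fun n => Filter.eventually_atTop.2 (a5 n)).1
  rw [← Set.ncard_coe_finset]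
  congr 1
  ext σ
  simp

end Pool.Agent.Results.MP_848037_lc.ThinDCE
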